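import Pool.Agent.LibHelper39.Points

/-!
# The Demailly / refined Chudnovsky bound for finite point sets, over every field

For every field `K`, every `N ≥ 1`, every nonempty finite set of points `P_1, …, P_n` of `ℙ^N(K)`
with ideal `I = ⋂ I(P_i)`, and all `m, r ≥ 1`:

  `(α(I^(m)) + N - 1) / (m + N - 1) ≤ α(I^(r)) / r`.
-/

namespace Pool.Agent.Results.MP_4fee6f_ag.DemaillyBound

open MvPolynomial Pool.Agent.LibHelper39

universe u

/-- The homogeneous prime ideal `I(P)` of a point `P` of projective `N`-space: the ideal generated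
by all forms that vanish at `P`. -/
noncomputable def pointIdeal {K : Type u} [Field K] {N : ℕ}
    (P : Projectivization K (Fin (N + 1) → K)) : Ideal (MvPolynomial (Fin (N + 1)) K) :=
  Ideal.span {f | ∃ d : ℕ, f.IsHomogeneous d ∧ MvPolynomial.eval P.rep f = 0}

/-- The symbolic power `I^(m) = I(P_1)^m ∩ ⋯ ∩ I(P_n)^m` of the ideal of the points `P_i`. -/
noncomputable def symbolicPower {K : Type u} [Field K] {N n : ℕ}
    (P : Fin n → Projectivization K (Fin (N + 1) → K)) (m : ℕ) :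
    Ideal (MvPolynomial (Fin (N + 1)) K) :=
  ⨅ i, (pointIdeal (P i)) ^ m

/-- The initial degree `α(J)`: the least degree of a nonzero homogeneous element of `J`. -/
noncomputable def initialDegree {K : Type u} [Field K] {N : ℕ}
    (J : Ideal (MvPolynomial (Fin (N + 1)) K)) : ℕ :=
  sInf {d : ℕ | ∃ f ∈ J, f ≠ 0 ∧ f.IsHomogeneous d}

/-- **Theorem.** For every field `K`, all `N, n, m, r ≥ 1` and all distinct points
`P_1, …, P_n` of `ℙ^N(K)`, `(α(I^(m)) + N - 1) / (m + N - 1) ≤ α(I^(r)) / r`. -/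
theorem result (K : Type u) [Field K] (N : ℕ) (hN : 1 ≤ N) (n : ℕ) (hn : 1 ≤ n)
    (P : Fin n → Projectivization K (Fin (N + 1) → K)) (_hP : Function.Injective P)
    (m r : ℕ) (_hm : 1 ≤ m) (hr : 1 ≤ r) :
    ((initialDegree (symbolicPower P m) : ℚ) + (N : ℚ) - 1) / ((m : ℚ) + (N : ℚ) - 1) ≤
      (initialDegree (symbolicPower P r) : ℚ) / (r : ℚ) := by
  classical
  -- coordinates of the points
  have hcoord : ∀ i, ∃ j, (P i).rep j ≠ 0 := fun i => exists_coord_ne_zero (P i).rep_nonzero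
  choose j hj using hcoord
  set v : Fin n → Fin (N + 1) → K := fun i k => (P i).rep k / (P i).rep (j i) with hv
  have hpt : ∀ i, pointIdeal (P i) = IP (j i) (v i) := fun i => span_forms_eq _ (hj i)
  have hmem : ∀ (s : ℕ) (f : MvPolynomial (Fin (N + 1)) K),
      f ∈ symbolicPower P s ↔ ∀ i, f ∈ (IP (j i) (v i)) ^ s := by
    intro s f
    unfold symbolicPower
    rw [Ideal.mem_iInf]
    simp only [hpt]
  -- the initial degree of `I^(r)` is attained
  have hne : {d : ℕ | ∃ f ∈ symbolicPower P r, f ≠ 0 ∧ f.IsHomogeneous d}.Nonempty := by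
    obtain ⟨d, f, hf0, hfd, hf⟩ := exists_form j v (by rw [Fintype.card_fin]; omega) (fun _ => r)
    exact ⟨d, f, (hmem r f).mpr hf, hf0, hfd⟩
  obtain ⟨f, hfmem, hf0, hfD⟩ := Nat.sInf_mem hne
  have hfmem' := (hmem r f).mp hfmem
  obtain ⟨d, g, hg0, hgd, hg, hdeg⟩ := core (N := N) j v (Fintype.card_fin _) hN hf0 hfD
    (m + (N - 1)) r hr (fun _ => r) (fun _ => m) hfmem'
    (fun _ => Or.inr (by rw [Nat.mul_comm])) ⟨⟨0, hn⟩, by rw [Nat.mul_comm]⟩
  have h1 : initialDegree (symbolicPower P m) ≤ d :=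
    Nat.sInf_le ⟨g, (hmem m g).mpr hg, hg0, hgd⟩
  have h2 : r * (initialDegree (symbolicPower P m) + (N - 1)) ≤
      (m + (N - 1)) * initialDegree (symbolicPower P r) :=
    le_trans (Nat.mul_le_mul_left _ (Nat.add_le_add_right h1 _)) hdeg
  have h3 : (0 : ℚ) < (m : ℚ) + (N : ℚ) - 1 := by
    have a1 : (1 : ℚ) ≤ (m : ℚ) := by exact_mod_cast _hm
    have a2 : (1 : ℚ) ≤ (N : ℚ) := by exact_mod_cast hN
    linarith
  have h4 : (0 : ℚ) < (r : ℚ) := by exact_mod_cast hr
  rw [div_le_div_iff₀ h3 h4]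
  have h5 : ((N - 1 : ℕ) : ℚ) = (N : ℚ) - 1 := by
    rw [Nat.cast_sub hN, Nat.cast_one]
  have h6 : ((r * (initialDegree (symbolicPower P m) + (N - 1)) : ℕ) : ℚ) ≤
      (((m + (N - 1)) * initialDegree (symbolicPower P r) : ℕ) : ℚ) := by exact_mod_cast h2
  rw [Nat.cast_mul, Nat.cast_add, Nat.cast_mul, Nat.cast_add, h5] at h6
  linarith

end Pool.Agent.Results.MP_4fee6f_ag.DemaillyBound
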